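import Pool.Agent.Y137.TV.Final

/-!
# The Tate conjecture for the products of abelian varieties of dimension at most five, and of products
of elliptic curves and abelian surfaces, with arbitrary varieties

Let `Y` be an abelian variety over the field `k` with `q` elements (`RedAV`: over an algebraic closure
each abelian variety is isogenous to the reduction of an abelian variety of CM type, by Honda and
Tate). Suppose (`IsGoodAVS`) that

* the dimension of `Y` is at most five, or
* `Y` is isogenous over `k̄` to a product of abelian varieties of dimension at most three, such that
  any two of them which are nonisogenous, not supersingular, of dimension three, and whose CM fields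
  have the same Galois closure, have CM fields that are Galois over `ℚ`, and of a supersingular abelian
  variety of any dimension. So `Y` may be **any product of elliptic curves and abelian surfaces**, of
  any dimension and with any Newton polygon.

Let `U` be **any** smooth projective variety over `k`, and let `φ` be the Frobenius endomorphism of
`M = H^b(U)`, the coefficients being extended to an algebraically closed field `Ω`. We only assume that
each eigenvalue `α` of `φ` is independent of `Y` (`IsIndependent`): the intersection of the field
`ℚ(α ^ N)`, for some `N > 0`, with the compositum of the Galois closures of the CM fields of the factors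
of `Y` is totally real. (No assumption on slopes, no semisimplicity, no form of the Tate conjecture or
of the standard conjectures is assumed for `U`.)

**Theorem.** Each Tate class in `H^{2m}(Y) ⊗ H^b(U)` over a finite extension of `k` is a linear
combination of products `f ⊗ w`, where `w` is a Tate class in `H^b(U)` and `f` is a Tate class on `Y`
that belongs to the system `AlgS` generated by the Tate classes of degree two, by the reductions of the
split Weil classes on abelian fourfolds and sixfolds of CM type, and by the reductions of the Hodge
classes of degree four on products of elliptic curves and abelian surfaces of CM type. The same is true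
for the generalised eigenspaces (`r` arbitrary). If no eigenvalue of `φ` is of supersingular type in odd
degree, then there are no Tate classes in `H^k(Y) ⊗ H^b(U)` for odd `k`.

The classes of `AlgS` are algebraic, by theorems of Tate, Markman and Ramón Marí. So, if the cohomology
of `U` is as above (for example, if its odd cohomology vanishes and its eigenvalues are independent of
`Y`), then **the Tate conjecture for `Y × U`, in all codimensions, is equivalent to the Tate conjecture
for `U`**; and the same holds for the Tate conjecture together with semisimplicity. For example the
Tate conjecture holds, in all codimensions, for `Y × X` for all K3 surfaces `X` with Frobenius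
eigenvalues independent of `Y`, and for the products of `Y` with all varieties built from K3 surfaces
(powers, Hilbert schemes), Fermat hypersurfaces, and so on, for which it is known.

Idea of the proof: if `b α` is a power of `q` up to a root of unity, `b` a product of Frobenius
eigenvalues of `Y`, and if `τ` fixes `α` up to a root of unity and induces the complex conjugation on the
CM fields of `Y` then `b` and its conjugate agree up to a root of unity, so that `b` itself is of Tate
type.
-/

set_option autoImplicit false

namespace Pool.Agent.Results.MP_950c68_ag.FiveAndSurfacesTimesVarieties

open Module Pool.Agent.W495.TA Pool.Agent.Y137.GN Pool.Agent.Y137.TV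

/-- **Tate classes on `Y × U`**, `Y` an abelian variety of dimension at most five, or a product of
elliptic curves and abelian surfaces, and `U` an arbitrary variety with independent Frobenius
eigenvalues. -/
theorem result (p : ℕ) [Fact p.Prime] (ν : PadicAlgCl p ≃+* ℂ) (Ω : Type) [Field Ω]
    [IsAlgClosed Ω] [CharZero Ω] (Y : RedAV p ν) (hY : IsGoodAVS Y)
    (M : Type) [AddCommGroup M] [Module Ω M] [FiniteDimensional Ω M] (φ : M →ₗ[Ω] M)
    (hφ : ∀ α, End.HasEigenvalue φ α → IsIndependent Y α) (s c r : ℕ) (hs : 0 < s) :
    (∀ (m : ℕ) (g : (TM Ω Y) [⋀^Fin (2 * m)]→ₗ[Ω] M),
      IsTateVector (frobOn Y φ (2 * m)) ((p : Ω) ^ Y.a) c s r g →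
        g ∈ Submodule.span Ω {h | IsProductClass Y φ m c r h}) ∧
    ((∀ α, End.HasEigenvalue φ α → ¬ IsOddSupersingular ((p : Ω) ^ Y.a) α) →
      ∀ (k : ℕ), Odd k → ∀ g : (TM Ω Y) [⋀^Fin k]→ₗ[Ω] M,
        IsTateVector (frobOn Y φ k) ((p : Ω) ^ Y.a) c s r g → g = 0) :=
  main Y hY φ hφ s c r hs

end Pool.Agent.Results.MP_950c68_ag.FiveAndSurfacesTimesVarieties
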