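import Pool.Agent.Y138.KC.Final

/-!
# The Tate conjecture for `X × X × X`, `X` a K3 surface over a finite field

Let `X` be a K3 surface of finite height `h` and Picard number `ρ` over an algebraic closure of the
field with `p` elements. Over a large finite field with `q` elements its transcendental cohomology in
degree two, of dimension `22 - ρ`, is the sum of eigenspaces of Frobenius, of the same dimension `r`,
for the conjugates of a number `q α`, where `α` and all its powers generate a CM field `E` of degree
`2 d = (22 - ρ) / r`, all complex absolute values of `α` are one, and the `p`-adic embeddings of `E`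
with `|α| > 1` belong to one place, of local degree `m = h / r` (`IsK3Frobenius`; the Picard number
of a K3 surface over a finite field is even and at least two, so `d ≤ 10`). In the theorem `X` may be
any variety with cohomology of this type (`HasWeilNumber`; the number `e` is the degree of an
extension of the field of definition). The Tate conjecture is known for `X` and for `X × X` (Charles,
Madapusi Pera, Kim and Madapusi Pera; Ito, Ito and Koshikawa), and for all powers of ordinary K3
surfaces (Zarhin).

**Theorem.** If `(d, m)` is not one of the nine pairs `(3, 2), (6, 2), (6, 3), (6, 4), (9, 2), (9, 4),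
(9, 6), (10, 4), (10, 6)` then the Tate conjecture and the semisimplicity of Frobenius hold in all
codimensions for `X × X × X` (and for all products of at most three copies of `X` with varieties all
of whose cohomology is algebraic). Moreover for all such products `Z` and **all** smooth projective
varieties `U` such that the field `L` which determines the slopes of `U` is independent of `E`
(for instance `L` Galois over `ℚ` with `L ∩ E'` totally real, `E'` the Galois closure of `E`) the Tate
conjecture for `Z × U` in codimension `c` is equivalent to the Tate conjecture for `U` in codimension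
`c - i` for all `i ≤ c` with a homologically nontrivial cycle of codimension `i` on `Z`; and similarly
with semisimplicity.

So the Tate conjecture holds for the cubes of all K3 surfaces over finite fields, except possibly
if `(ρ, h)` is one of `(16, 2), (10, 2), (10, 3), (10, 4), (4, 2), (4, 4), (4, 6), (2, 4), (2, 6)`; in
particular for all K3 surfaces of height `1, 5, 7, 8, 9, 10`, and always if `3 h > 22 - ρ`.

The idea: suppose that the product of three conjugates of `α` is a root of unity. By a count each
conjugate occurs in the same number `r` of such relations, and the differences of the conjugates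
which are not integral at a `p`-adic place form an `r`-regular graph on `m` vertices with transitive
automorphism group. Counts of edges (with parity and divisibility by three) and the Galois-invariant
inner product exclude all pairs `(d, m)` with `d ≤ 10` that are not in the list.
-/

set_option autoImplicit false

open CategoryTheory AlgebraicGeometry NumberField

universe u v

namespace Pool.Agent.Results.MP_950c68_ag.K3Cubes

open Pool.Agent.H914 Pool.Agent.W534 Pool.Agent.TH132.A Pool.Agent.TH121.KT Pool.Agent.W517.K3
  Pool.Agent.Y138.KC VarClass Obj WeilCohomology

/-- **The Tate conjecture for the cubes of K3 surfaces, and for their products with independent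
varieties.** -/
theorem result {k : Type u} [Field k] {𝒱 : VarClass k} {ops : CycleOps 𝒱}
    (W : WeilCohomology.{u, v} ops) [IsAlgClosed W.K] (p : ℕ) [Fact p.Prime]
    (Φ : FrobSystem W p) (ι : AlgebraicClosure ℚ →+* PadicAlgCl p) (X : 𝒱.Obj)
    (E : Type) [Field E] [NumberField E] [IsCMField E] (a e : ℕ) (α : E)
    (hα : IsK3Frobenius p a α) (hX : HasWeilNumber Φ X e α) (d : ℕ)
    (hd : Module.finrank ℚ E = 2 * d) (hd10 : d ≤ 10)
    (hex : (d, localDegree p α) ∉ exceptionalPairs)
    (n : ℕ) (hn : n ≤ 3) (Z : 𝒱.Obj) (hZ : IsPower W X n Z) :
    (∀ c, SemisimpleTateIn Φ Z c) ∧
    ∀ L : IntermediateField ℚ (AlgebraicClosure ℚ), IsIndependentField E L →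
      ∀ U : 𝒱.Obj, FrobeniusSlopes Φ ι L U → ∀ c,
      (TateIn Φ (Z.prod U) c ↔
        ∀ i ≤ c, (∃ x, Z.IsCyc i x ∧ ¬ HomEq W x 0) → TateIn Φ U (c - i)) ∧
      (SemisimpleTateIn Φ (Z.prod U) c ↔
        ∀ i ≤ c, (∃ x, Z.IsCyc i x ∧ ¬ HomEq W x 0) → SemisimpleTateIn Φ U (c - i)) :=
  main_good hα hd rfl ⟨hd10, Or.inl ⟨hn, hex⟩⟩ hX hZ

end Pool.Agent.Results.MP_950c68_ag.K3Cubes
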