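import Pool.Agent.Y138.KC.Final

/-!
# The Tate conjecture for all powers of K3 surfaces of odd height over finite fields

Let `X` be a K3 surface of finite height `h` and Picard number `ρ` over an algebraic closure of the
field with `p` elements. Over a large finite field with `q` elements its transcendental cohomology in
degree two, of dimension `22 - ρ`, is the sum of eigenspaces of Frobenius, of the same dimension `r`,
for the conjugates of a number `q α`, where `α` and all its powers generate a CM field `E` of degree
`2 d = (22 - ρ) / r`, all complex absolute values of `α` are one, and the `p`-adic embeddings of `E`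
with `|α| > 1` belong to one place, of local degree `m = h / r` (`IsK3Frobenius`; the Picard number
of a K3 surface over a finite field is even and at least two, so `d ≤ 10`). In the theorem `X` may be
any variety with cohomology of this type (`HasWeilNumber`; the number `e` is the degree of an
extension of the field of definition). The Tate conjecture is known for `X` and for `X × X` (Charles,
Madapusi Pera, Kim and Madapusi Pera; Ito, Ito and Koshikawa), and for all powers of ordinary K3
surfaces (Zarhin).

**Theorem.** Let `m` be odd (for example let the height `h` be odd), and suppose that `(d, m)` is not
one of the four pairs `(6, 3), (9, 3), (10, 3), (10, 5)`. Then the Tate conjecture and the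
semisimplicity of Frobenius hold in all codimensions for **all powers** of `X` (and for their products
with varieties all of whose cohomology is algebraic). Moreover for all such products `Z` and **all**
smooth projective varieties `U` such that the field `L` which determines the slopes of `U` is
independent of `E` (for instance `L` Galois over `ℚ` with `L ∩ E'` totally real, `E'` the Galois
closure of `E`) the Tate conjecture for `Z × U` in codimension `c` is equivalent to the Tate
conjecture for `U` in codimension `c - i` for all `i ≤ c` with a homologically nontrivial cycle of
codimension `i` on `Z`; and similarly with semisimplicity.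

So the Tate conjecture holds for all powers of all K3 surfaces of odd height over finite fields,
except possibly if `(ρ, h)` is one of `(10, 3), (4, 3), (2, 3), (2, 5)`.

This was known for `h = 1`. The earlier result `K3Powers` (a starting file) reduces the Tate conjecture
for powers to classes of Weil type (norm forms) if `m ≤ 2`, if `d` is four or a prime number and if `m`
is a prime number greater than `d / 2`. Here it is shown that for odd `m` there are no such norm classes,
and that there are no relations between the conjugates of `α` for `(d, m) = (8, 3), (9, 9), (10, 9)`:
* for `(8, 3)` by the fixed vectors modulo two of a `2`-group which is transitive on the embeddings;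
* for `(9, 9)` a `3`-group has, modulo three, a fixed relation, which must be a multiple of the slope
  function; so the translates of the slope function, vectors of nine signs, have inner products
  divisible by three, and they do not separate the nine embeddings;
* for `(10, 9)` (in general for odd `m = d - 1`) the Galois group is doubly transitive on the pairs of
  conjugate embeddings, the slope function is an eigenvector of the matrix of the Galois-invariant
  inner product, but its value at the pair of embeddings with slope zero would be a nonzero odd
  multiple of a number.
-/

set_option autoImplicit false

open CategoryTheory AlgebraicGeometry NumberField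

universe u v

namespace Pool.Agent.Results.MP_950c68_ag.K3OddHeight

open Pool.Agent.H914 Pool.Agent.W534 Pool.Agent.TH132.A Pool.Agent.TH121.KT Pool.Agent.W517.K3
  Pool.Agent.Y138.KC VarClass Obj WeilCohomology

/-- **The Tate conjecture for all powers of K3 surfaces of odd height, and for their products with
independent varieties.** -/
theorem result {k : Type u} [Field k] {𝒱 : VarClass k} {ops : CycleOps 𝒱}
    (W : WeilCohomology.{u, v} ops) [IsAlgClosed W.K] (p : ℕ) [Fact p.Prime]
    (Φ : FrobSystem W p) (ι : AlgebraicClosure ℚ →+* PadicAlgCl p) (X : 𝒱.Obj)
    (E : Type) [Field E] [NumberField E] [IsCMField E] (a e : ℕ) (α : E)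
    (hα : IsK3Frobenius p a α) (hX : HasWeilNumber Φ X e α) (d : ℕ)
    (hd : Module.finrank ℚ E = 2 * d) (hd10 : d ≤ 10) (hodd : Odd (localDegree p α))
    (hex : (d, localDegree p α) ∉ exceptionalOddPairs)
    (n : ℕ) (Z : 𝒱.Obj) (hZ : IsPower W X n Z) :
    (∀ c, SemisimpleTateIn Φ Z c) ∧
    ∀ L : IntermediateField ℚ (AlgebraicClosure ℚ), IsIndependentField E L →
      ∀ U : 𝒱.Obj, FrobeniusSlopes Φ ι L U → ∀ c,
      (TateIn Φ (Z.prod U) c ↔
        ∀ i ≤ c, (∃ x, Z.IsCyc i x ∧ ¬ HomEq W x 0) → TateIn Φ U (c - i)) ∧
      (SemisimpleTateIn Φ (Z.prod U) c ↔
        ∀ i ≤ c, (∃ x, Z.IsCyc i x ∧ ¬ HomEq W x 0) → SemisimpleTateIn Φ U (c - i)) :=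
  main_good hα hd rfl ⟨hd10, Or.inr ⟨hodd, hex⟩⟩ hX hZ

end Pool.Agent.Results.MP_950c68_ag.K3OddHeight
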